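import Mathlib
import Pool.Agent.W966.Vf.Stms
import Pool.Agent.Helper165.P1.Pui

/-!
Project VF (owner helper966): part PUI, Puiseux parametrisation.
-/

set_option autoImplicit false

open Pool.Agent.Helper165.P1 Pool.Agent.W966.Vf

namespace Pool.Agent.W443.VF

section

variable {Ω : Type} [Field Ω]

theorem coeff_ofPS_neg (a : PowerSeries Ω) (i : ℤ) (hi : i < 0) :
    (HahnSeries.ofPowerSeries ℤ Ω a).coeff i = 0 := by
  rw [HahnSeries.ofPowerSeries_apply]
  apply HahnSeries.embDomain_notin_image_support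
  rintro ⟨k, _, hk⟩
  have : (k : ℤ) = i := hk
  omega

/-- power series in `t^(1/m)` -/
noncomputable def Phi (m : ℕ) (hm : 0 < m) : PowerSeries Ω →+* HQ Ω :=
  (eHom m hm).comp (HahnSeries.ofPowerSeries ℤ Ω)

theorem Phi_apply (m : ℕ) (hm : 0 < m) (a : PowerSeries Ω) :
    Phi m hm a = eHom m hm (HahnSeries.ofPowerSeries ℤ Ω a) := rfl

theorem Phi_injective (m : ℕ) (hm : 0 < m) : Function.Injective (Phi (Ω := Ω) m hm) := by
  intro a b h
  exact HahnSeries.ofPowerSeries_injective ((eHom m hm).injective h)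

theorem Phi_coeff_neg (m : ℕ) (hm : 0 < m) (a : PowerSeries Ω) (q : ℚ) (hq : q < 0) :
    (Phi m hm a).coeff q = 0 := by
  rw [Phi_apply]
  by_cases h : ∃ n : ℤ, (n : ℚ) / m = q
  · obtain ⟨n, rfl⟩ := h
    rw [eHom_coeff]
    apply coeff_ofPS_neg
    have hm' : (0 : ℚ) < m := by exact_mod_cast hm
    by_contra hcon
    have h1 : (0 : ℚ) ≤ (n : ℚ) := by exact_mod_cast (not_lt.1 hcon)
    have : (0 : ℚ) ≤ (n : ℚ) / m := div_nonneg h1 hm'.le
    linarith
  · push Not at h
    exact eHom_coeff_of_ne m hm _ q h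

theorem Phi_nonneg (m : ℕ) (hm : 0 < m) (a : PowerSeries Ω) :
    0 ≤ HahnSeries.addVal ℚ Ω (Phi m hm a) := by
  rw [HahnSeries.addVal_apply, HahnSeries.le_orderTop_iff_forall]
  intro j hj
  exact Phi_coeff_neg m hm a j (by exact_mod_cast hj)

theorem Phi_C (m : ℕ) (hm : 0 < m) (a : Ω) :
    Phi m hm (PowerSeries.C a) = HahnSeries.C a := by
  rw [Phi_apply, HahnSeries.ofPowerSeries_C]
  ext q
  have hm' : (m : ℚ) ≠ 0 := by exact_mod_cast hm.ne'
  by_cases h : ∃ n : ℤ, (n : ℚ) / m = q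
  · obtain ⟨n, rfl⟩ := h
    rw [eHom_coeff, HahnSeries.C_apply, HahnSeries.C_apply, HahnSeries.coeff_single,
      HahnSeries.coeff_single]
    by_cases hn : n = 0
    · subst hn; simp
    · rw [if_neg hn, if_neg]
      intro h2
      apply hn
      have : (n : ℚ) = 0 := by
        field_simp at h2
        simpa using h2
      exact_mod_cast this
  · push Not at h
    rw [eHom_coeff_of_ne m hm _ q h, HahnSeries.C_apply, HahnSeries.coeff_single, if_neg]
    intro h2
    exact h 0 (by rw [h2]; simp)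

theorem Phi_X (m : ℕ) (hm : 0 < m) :
    Phi (Ω := Ω) m hm PowerSeries.X = HahnSeries.single ((1 : ℚ) / m) 1 := by
  rw [Phi_apply, HahnSeries.ofPowerSeries_X]
  ext q
  have hm' : (m : ℚ) ≠ 0 := by exact_mod_cast hm.ne'
  by_cases h : ∃ n : ℤ, (n : ℚ) / m = q
  · obtain ⟨n, rfl⟩ := h
    rw [eHom_coeff, HahnSeries.coeff_single, HahnSeries.coeff_single]
    by_cases hn : n = 1
    · subst hn; simp
    · rw [if_neg hn, if_neg]
      intro h2
      apply hn
      have : (n : ℚ) = 1 := by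
        field_simp at h2
        simpa using h2
      exact_mod_cast this
  · push Not at h
    rw [eHom_coeff_of_ne m hm _ q h, HahnSeries.coeff_single, if_neg]
    intro h2
    exact h 1 (by rw [h2]; simp)

theorem Phi_X_pow (m : ℕ) (hm : 0 < m) :
    Phi (Ω := Ω) m hm (PowerSeries.X ^ m) = HahnSeries.single (1 : ℚ) 1 := by
  have hm' : (m : ℚ) ≠ 0 := by exact_mod_cast hm.ne'
  rw [map_pow, Phi_X, HahnSeries.single_pow, one_pow]
  congr 1
  rw [nsmul_eq_mul]
  field_simp

theorem Phi_one_X : Phi (Ω := Ω) 1 one_pos PowerSeries.X = HahnSeries.single (1 : ℚ) 1 := by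
  rw [Phi_X]; simp

/-- roots of monic polynomials with coefficients of nonnegative order have nonnegative order -/
theorem val_nonneg_of_root {R : Type} [CommRing R] (A : R →+* HQ Ω)
    (hA : ∀ a, 0 ≤ HahnSeries.addVal ℚ Ω (A a)) (p : Polynomial R) (hp : p.Monic) (x : HQ Ω)
    (hx : p.eval₂ A x = 0) : 0 ≤ HahnSeries.addVal ℚ Ω x := by
  set v := HahnSeries.addVal ℚ Ω with hv
  by_contra hcon
  rw [not_le] at hcon
  have hx0 : x ≠ 0 := by
    rintro rfl
    rw [AddValuation.map_zero] at hcon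
    exact absurd hcon (by simp)
  have hy : 0 < v x⁻¹ := by
    by_contra h
    rw [not_lt] at h
    have h1 : v x + v x⁻¹ = 0 := by
      rw [← AddValuation.map_mul, mul_inv_cancel₀ hx0, AddValuation.map_one]
    have h2 : v x + v x⁻¹ < 0 := add_neg_of_neg_of_nonpos hcon h
    rw [h1] at h2
    exact lt_irrefl _ h2
  set y := x⁻¹ with hydef
  have hxy : x * y = 1 := mul_inv_cancel₀ hx0
  set n := p.natDegree with hn
  have h1 : ∑ i ∈ Finset.range n, A (p.coeff i) * x ^ i + x ^ n = 0 := by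
    have := hx
    rw [Polynomial.eval₂_eq_sum_range, Finset.sum_range_succ] at this
    rw [show p.coeff p.natDegree = 1 from hp, map_one, one_mul] at this
    exact this
  have h2 : ∑ i ∈ Finset.range n, A (p.coeff i) * y ^ (n - i) + 1 = 0 := by
    have h3 := congrArg (fun z => z * y ^ n) h1
    simp only [zero_mul] at h3
    rw [add_mul, ← mul_pow, hxy, one_pow, Finset.sum_mul] at h3
    rw [← h3]
    congr 1
    refine Finset.sum_congr rfl ?_
    intro i hi
    have hi' := Finset.mem_range.1 hi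
    have h4 : y ^ n = y ^ i * y ^ (n - i) := by
      rw [← pow_add]; congr 1; omega
    rw [h4, mul_assoc, ← mul_assoc (x ^ i), ← mul_pow, hxy, one_pow, one_mul]
  have h5 : (1 : HQ Ω) = -∑ i ∈ Finset.range n, A (p.coeff i) * y ^ (n - i) := by
    linear_combination h2
  have h6 : 0 < v (∑ i ∈ Finset.range n, A (p.coeff i) * y ^ (n - i)) := by
    refine v.map_lt_sum (by simp) ?_
    intro i hi
    have hi' := Finset.mem_range.1 hi
    rw [AddValuation.map_mul, AddValuation.map_pow]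
    exact lt_of_lt_of_le (nsmul_pos hy (by omega)) (le_add_of_nonneg_left (hA _))
  have h7 : v 1 = v (∑ i ∈ Finset.range n, A (p.coeff i) * y ^ (n - i)) := by
    conv_lhs => rw [h5, AddValuation.map_neg]
  rw [AddValuation.map_one] at h7
  rw [← h7] at h6
  exact lt_irrefl _ h6

theorem exists_g (m : ℕ) (hm : 0 < m) (z : NP.LS Ω)
    (hz : 0 < HahnSeries.addVal ℚ Ω (eHom m hm z)) :
    ∃ g : PowerSeries Ω, PowerSeries.constantCoeff g = 0 ∧ Phi m hm g = eHom m hm z := by
  have hz0 : ∀ i : ℤ, i ≤ 0 → z.coeff i = 0 := by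
    intro i hi
    rw [← eHom_coeff m hm]
    apply HahnSeries.coeff_eq_zero_of_lt_orderTop
    rw [HahnSeries.addVal_apply] at hz
    refine lt_of_le_of_lt ?_ hz
    have hm' : (0 : ℚ) < m := by exact_mod_cast hm
    have h1 : (i : ℚ) ≤ 0 := by exact_mod_cast hi
    exact_mod_cast div_nonpos_of_nonpos_of_nonneg h1 hm'.le
  obtain ⟨g, hg⟩ := NP.mem_range_ofPowerSeries z (fun i hi => hz0 i hi.le)
  refine ⟨g, ?_, by rw [Phi_apply, hg]⟩
  have := HahnSeries.ofPowerSeries_apply_coeff (Γ := ℤ) (R := Ω) g 0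
  rw [hg] at this
  rw [← PowerSeries.coeff_zero_eq_constantCoeff_apply, ← this]
  exact hz0 _ (by simp)

end

theorem pui : S_PUI := by
  classical
  intro Ω ρ D _ _ _ _ _ _ _ h hfin hinj hpow
  -- embedding of `D` in the field of Puiseux series
  let φ₀ : PowerSeries Ω →+* Pui Ω :=
    (Phi 1 one_pos).codRestrict (Pui Ω) (fun a => eHom_mem 1 one_pos _)
  have hφ₀ : ∀ a, ((φ₀ a : Pui Ω) : HQ Ω) = Phi 1 one_pos a := fun a => rfl
  have hφ₀inj : Function.Injective φ₀ := by
    intro a b hab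
    exact Phi_injective 1 one_pos (congrArg Subtype.val hab)
  let _ : Algebra (PowerSeries Ω) (Pui Ω) := φ₀.toAlgebra
  have halg : algebraMap (PowerSeries Ω) (Pui Ω) = φ₀ := rfl
  have : Module.IsTorsionFree (PowerSeries Ω) D :=
    Module.isTorsionFree_iff_algebraMap_injective.2 hinj
  have : Module.IsTorsionFree (PowerSeries Ω) (Pui Ω) :=
    Module.isTorsionFree_iff_algebraMap_injective.2 hφ₀inj
  have : Algebra.IsIntegral (PowerSeries Ω) D := Algebra.IsIntegral.of_finite _ _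
  have : Algebra.IsAlgebraic (PowerSeries Ω) D := inferInstance
  let ψ : D →ₐ[PowerSeries Ω] Pui Ω := IsAlgClosed.lift
  let Ψ : D →+* HQ Ω := (Pui Ω).subtype.comp ψ.toRingHom
  have hΨ : ∀ a, Ψ (algebraMap (PowerSeries Ω) D a) = Phi 1 one_pos a := by
    intro a
    change ((ψ (algebraMap (PowerSeries Ω) D a) : Pui Ω) : HQ Ω) = _
    rw [AlgHom.commutes, halg, hφ₀]
  have hnonneg : ∀ d : D, 0 ≤ HahnSeries.addVal ℚ Ω (Ψ d) := by
    intro d
    obtain ⟨p, hp, hd⟩ := Algebra.IsIntegral.isIntegral (R := PowerSeries Ω) d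
    refine val_nonneg_of_root (Phi 1 one_pos) (Phi_nonneg 1 one_pos) p hp (Ψ d) ?_
    have h1 := congrArg Ψ hd
    rw [Polynomial.hom_eval₂, map_zero] at h1
    have h2 : Ψ.comp (algebraMap (PowerSeries Ω) D) = Phi 1 one_pos := by
      ext1 a; exact hΨ a
    rwa [h2] at h1
  have hpos : ∀ v, 0 < HahnSeries.addVal ℚ Ω (Ψ (h v)) := by
    intro v
    obtain ⟨m, d, hm, hd⟩ := hpow v
    have h0 : Ψ (h v) ^ m = HahnSeries.single (1 : ℚ) (1 : Ω) * Ψ d := by
      rw [← map_pow, hd, map_mul, hΨ, Phi_one_X]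
    have h1 := congrArg (HahnSeries.addVal ℚ Ω) h0
    rw [AddValuation.map_pow, AddValuation.map_mul] at h1
    by_contra hcon
    rw [not_lt] at hcon
    have h2 : m • HahnSeries.addVal ℚ Ω (Ψ (h v)) ≤ 0 := nsmul_nonpos hcon m
    rw [h1] at h2
    have h3 : (0 : WithTop ℚ) < HahnSeries.addVal ℚ Ω (HahnSeries.single (1 : ℚ) (1 : Ω)) := by
      rw [HahnSeries.addVal_apply, HahnSeries.orderTop_single one_ne_zero]
      exact_mod_cast one_pos
    have h4 := add_pos_of_pos_of_nonneg h3 (hnonneg d)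
    exact absurd h2 (not_le.2 h4)
  obtain ⟨e, he, hcommon⟩ := exists_common (Finset.univ.image fun v => ψ (h v))
  have hg : ∀ v, ∃ g : PowerSeries Ω, PowerSeries.constantCoeff g = 0 ∧
      Phi e he g = Ψ (h v) := by
    intro v
    obtain ⟨z, hz⟩ := hcommon (ψ (h v)) (Finset.mem_image_of_mem _ (Finset.mem_univ v))
    have hz' : eHom e he z = Ψ (h v) := hz
    have := exists_g e he z (by rw [hz']; exact hpos v)
    rwa [hz'] at this
  choose g hg0 hg1 using hg
  refine ⟨e, g, he, hg0, ?_⟩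
  intro F γ hF
  apply Phi_injective e he
  have h1 := congrArg Ψ hF
  rw [MvPolynomial.eval₂_comp_left, hΨ, map_mul, Phi_C, Phi_one_X] at h1
  rw [MvPolynomial.eval₂_comp_left, map_mul, Phi_C, Phi_X_pow, ← h1]
  have h2 : (Ψ.comp ((algebraMap (PowerSeries Ω) D).comp PowerSeries.C)) =
      (Phi e he).comp PowerSeries.C := by
    ext1 a
    change Ψ (algebraMap (PowerSeries Ω) D (PowerSeries.C a)) = Phi e he (PowerSeries.C a)
    rw [hΨ, Phi_C, Phi_C]
  have h3 : (Ψ ∘ h) = (Phi e he) ∘ g := by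
    funext v
    exact (hg1 v).symm
  rw [h2, h3]

end Pool.Agent.W443.VF
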